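import Pool.Agent.V5helper47.MinLen.Bound

/-! The algorithm and its computability. -/

namespace Pool.Agent.V5helper47.MinLen

open Polynomial Encodable

/-- the polynomial with a given list of coefficients (the constant coefficient first) -/
noncomputable def toPoly (l : List ℤ) : ℤ[X] :=
  ∑ i ∈ Finset.range l.length, monomial i (l.getD i 0)

theorem toPoly_coeff (l : List ℤ) (i : ℕ) : (toPoly l).coeff i = l.getD i 0 := by
  unfold toPoly
  rw [finsetSum_coeff]
  simp only [coeff_monomial]
  rw [Finset.sum_ite_eq']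
  split_ifs with h
  · rfl
  · rw [Finset.mem_range] at h
    rw [List.getD_eq_default _ _ (by omega)]

theorem natDegree_toPoly_le (l : List ℤ) : (toPoly l).natDegree ≤ l.length := by
  rw [natDegree_le_iff_coeff_eq_zero]
  intro i hi
  rw [toPoly_coeff, List.getD_eq_default _ _ (by omega)]

/-! ### Integers -/

theorem enc1 (n : ℕ) : encode (n : ℤ) = 2 * n := rfl

theorem enc2 (n : ℕ) : encode (Int.negSucc n) = 2 * n + 1 := rfl

theorem prim_toNat : Primrec (fun z : ℤ => z.toNat) := by
  have h : Primrec (fun z : ℤ => if (encode z) % 2 = 0 then (encode z) / 2 else 0) := by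
    refine Primrec.ite ?_ ?_ (Primrec.const 0)
    · exact Primrec.eq.comp (Primrec.nat_mod.comp Primrec.encode (Primrec.const 2)) (Primrec.const 0)
    · exact Primrec.nat_div.comp Primrec.encode (Primrec.const 2)
  refine h.of_eq ?_
  intro z
  cases z with
  | ofNat n =>
    rw [show (Int.ofNat n) = (n : ℤ) from rfl, enc1]; simp
  | negSucc n =>
    rw [enc2]; simp

theorem prim_negToNat : Primrec (fun z : ℤ => (-z).toNat) := by
  have h : Primrec (fun z : ℤ => if (encode z) % 2 = 0 then 0 else (encode z) / 2 + 1) := by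
    refine Primrec.ite ?_ (Primrec.const 0) ?_
    · exact Primrec.eq.comp (Primrec.nat_mod.comp Primrec.encode (Primrec.const 2)) (Primrec.const 0)
    · exact Primrec.succ.comp (Primrec.nat_div.comp Primrec.encode (Primrec.const 2))
  refine h.of_eq ?_
  intro z
  cases z with
  | ofNat n =>
    rw [show (Int.ofNat n) = (n : ℤ) from rfl, enc1]; simp
  | negSucc n =>
    rw [enc2]
    rw [if_neg (by omega)]
    rw [Int.neg_negSucc]
    rw [show (2 * n + 1) / 2 = n by omega]
    rfl

/-- difference of natural numbers -/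
def ofD (a b : ℕ) : ℤ := (a : ℤ) - b

theorem prim_ofD : Primrec₂ ofD := by
  have h : Primrec (fun p : ℕ × ℕ => if p.2 ≤ p.1 then 2 * (p.1 - p.2) else 2 * (p.2 - p.1 - 1) + 1) := by
    refine Primrec.ite ?_ ?_ ?_
    · exact Primrec.nat_le.comp Primrec.snd Primrec.fst
    · exact Primrec.nat_mul.comp (Primrec.const 2) (Primrec.nat_sub.comp Primrec.fst Primrec.snd)
    · exact Primrec.succ.comp (Primrec.nat_mul.comp (Primrec.const 2)
        (Primrec.nat_sub.comp (Primrec.nat_sub.comp Primrec.snd Primrec.fst) (Primrec.const 1)))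
  have h2 : Primrec (fun p : ℕ × ℕ => ofD p.1 p.2) := by
    rw [← Primrec.encode_iff]
    refine h.of_eq ?_
    rintro ⟨a, b⟩
    simp only
    split_ifs with hab
    · have : ofD a b = ((a - b : ℕ) : ℤ) := by unfold ofD; omega
      rw [this, enc1]
    · have : ofD a b = Int.negSucc (b - a - 1) := by
        unfold ofD
        rw [Int.negSucc_eq]; omega
      rw [this, enc2]
  exact h2

theorem prim_add : Primrec₂ (fun z w : ℤ => z + w) := by
  have h : Primrec (fun p : ℤ × ℤ => ofD (p.1.toNat + p.2.toNat) ((-p.1).toNat + (-p.2).toNat)) :=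
    prim_ofD.comp
      (Primrec.nat_add.comp (prim_toNat.comp Primrec.fst) (prim_toNat.comp Primrec.snd))
      (Primrec.nat_add.comp (prim_negToNat.comp Primrec.fst) (prim_negToNat.comp Primrec.snd))
  refine h.of_eq ?_
  rintro ⟨z, w⟩
  unfold ofD
  push_cast
  omega

theorem prim_mul : Primrec₂ (fun z w : ℤ => z * w) := by
  have h : Primrec (fun p : ℤ × ℤ =>
      ofD (p.1.toNat * p.2.toNat + (-p.1).toNat * (-p.2).toNat)
        (p.1.toNat * (-p.2).toNat + (-p.1).toNat * p.2.toNat)) :=
    prim_ofD.comp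
      (Primrec.nat_add.comp
        (Primrec.nat_mul.comp (prim_toNat.comp Primrec.fst) (prim_toNat.comp Primrec.snd))
        (Primrec.nat_mul.comp (prim_negToNat.comp Primrec.fst) (prim_negToNat.comp Primrec.snd)))
      (Primrec.nat_add.comp
        (Primrec.nat_mul.comp (prim_toNat.comp Primrec.fst) (prim_negToNat.comp Primrec.snd))
        (Primrec.nat_mul.comp (prim_negToNat.comp Primrec.fst) (prim_toNat.comp Primrec.snd)))
  refine h.of_eq ?_
  rintro ⟨z, w⟩
  have e1 : z = (z.toNat : ℤ) - ((-z).toNat : ℤ) := by omega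
  have e2 : w = (w.toNat : ℤ) - ((-w).toNat : ℤ) := by omega
  change ofD _ _ = z * w
  conv_rhs => rw [e1, e2]
  unfold ofD
  push_cast
  ring

theorem prim_natAbs : Primrec (fun z : ℤ => z.natAbs) := by
  have h : Primrec (fun z : ℤ => z.toNat + (-z).toNat) :=
    Primrec.nat_add.comp prim_toNat prim_negToNat
  refine h.of_eq ?_
  intro z
  omega

/-! ### Lists -/

/-- the length of a list of coefficients -/
def lenL (l : List ℤ) : ℕ := l.foldl (fun s z => s + z.natAbs) 0

theorem prim_lenL : Primrec lenL := by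
  have h : Primrec₂ (fun (_ : List ℤ) (p : ℕ × ℤ) => p.1 + p.2.natAbs) :=
    (Primrec.nat_add.comp (Primrec.fst.comp Primrec.snd)
      (prim_natAbs.comp (Primrec.snd.comp Primrec.snd))).to₂
  exact Primrec.list_foldl Primrec.id (Primrec.const 0) h

/-- one coefficient of a product -/
def coefL (l t : List ℤ) (k : ℕ) : ℤ :=
  (List.range (k + 1)).foldl (fun s i => s + l.getD i 0 * t.getD (k - i) 0) 0

theorem prim_coefL : Primrec (fun p : (List ℤ × List ℤ) × ℕ => coefL p.1.1 p.1.2 p.2) := by
  have h1 : Primrec (fun x : ((List ℤ × List ℤ) × ℕ) × (ℤ × ℕ) => x.1.1.1.getD x.2.2 0) :=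
    (Primrec.list_getD (0 : ℤ)).comp (Primrec.fst.comp (Primrec.fst.comp Primrec.fst))
      (Primrec.snd.comp Primrec.snd)
  have h2 : Primrec (fun x : ((List ℤ × List ℤ) × ℕ) × (ℤ × ℕ) =>
      x.1.1.2.getD (x.1.2 - x.2.2) 0) :=
    (Primrec.list_getD (0 : ℤ)).comp (Primrec.snd.comp (Primrec.fst.comp Primrec.fst))
      (Primrec.nat_sub.comp (Primrec.snd.comp Primrec.fst) (Primrec.snd.comp Primrec.snd))
  have h3 : Primrec₂ (fun (p : (List ℤ × List ℤ) × ℕ) (q : ℤ × ℕ) =>
      q.1 + p.1.1.getD q.2 0 * p.1.2.getD (p.2 - q.2) 0) :=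
    (prim_add.comp (Primrec.fst.comp Primrec.snd) (prim_mul.comp h1 h2)).to₂
  exact Primrec.list_foldl (Primrec.list_range.comp (Primrec.succ.comp Primrec.snd))
    (Primrec.const 0) h3

/-- product -/
def mulL (l t : List ℤ) : List ℤ := (List.range (l.length + t.length)).map (fun k => coefL l t k)

theorem prim_mulL : Primrec₂ mulL := by
  have h : Primrec (fun p : List ℤ × List ℤ =>
      (List.range (p.1.length + p.2.length)).map (fun k => coefL p.1 p.2 k)) := by
    refine Primrec.list_map ?_ ?_
    · exact Primrec.list_range.comp (Primrec.nat_add.comp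
        (Primrec.list_length.comp Primrec.fst) (Primrec.list_length.comp Primrec.snd))
    · exact prim_coefL.to₂
  exact h

/-- all lists of given length with entries from `A` -/
def enum (A : List ℤ) (n : ℕ) : List (List ℤ) :=
  Nat.rec [[]] (fun _ ih => ih.flatMap (fun t => A.map (fun a => a :: t))) n

theorem prim_enum : Primrec₂ enum := by
  have h1 : Primrec₂ (fun (x : (List ℤ × (ℕ × List (List ℤ))) × List ℤ) (a : ℤ) => a :: x.2) :=
    (Primrec.list_cons.comp Primrec.snd (Primrec.snd.comp Primrec.fst)).to₂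
  have h2 : Primrec₂ (fun (x : List ℤ × (ℕ × List (List ℤ))) (t : List ℤ) =>
      x.1.map (fun a => a :: t)) :=
    (Primrec.list_map (Primrec.fst.comp Primrec.fst) h1).to₂
  have h3 : Primrec₂ (fun (A : List ℤ) (p : ℕ × List (List ℤ)) =>
      p.2.flatMap (fun t => A.map (fun a => a :: t))) :=
    (Primrec.list_flatMap (Primrec.snd.comp Primrec.snd) h2).to₂
  exact Primrec.nat_rec (Primrec.const [[]]) h3

/-- integers of absolute value at most `H` -/
def ints (H : ℕ) : List ℤ := (List.range (H + 1)).flatMap (fun n => [ofD n 0, ofD 0 n])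

theorem prim_ints : Primrec ints := by
  have h : Primrec₂ (fun (_ : ℕ) (n : ℕ) => [ofD n 0, ofD 0 n]) :=
    (Primrec.list_cons.comp (prim_ofD.comp Primrec.snd (Primrec.const 0))
      (Primrec.list_cons.comp (prim_ofD.comp (Primrec.const 0) Primrec.snd)
        (Primrec.const []))).to₂
  exact Primrec.list_flatMap (Primrec.list_range.comp Primrec.succ) h

theorem prim_DD : Primrec (fun p : (ℕ × ℕ) × ℕ => DD p.1.1 p.1.2 p.2) := by
  have h1 : Primrec₂ (fun (q : ℕ × ℕ) (p : ℕ × ℕ) => p.2 + (2 * p.2 + 1) * (q.2 * q.1)) :=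
    (Primrec.nat_add.comp (Primrec.snd.comp Primrec.snd)
      (Primrec.nat_mul.comp
        (Primrec.succ.comp (Primrec.nat_mul.comp (Primrec.const 2) (Primrec.snd.comp Primrec.snd)))
        (Primrec.nat_mul.comp (Primrec.snd.comp Primrec.fst) (Primrec.fst.comp Primrec.fst)))).to₂
  have h : Primrec₂ (fun (q : ℕ × ℕ) (n : ℕ) =>
      Nat.rec (motive := fun _ => ℕ) 0 (fun _ D => D + (2 * D + 1) * (q.2 * q.1)) n) :=
    Primrec.nat_rec (Primrec.const 0) h1
  refine Primrec.of_eq h ?_
  rintro ⟨⟨s, l⟩, j⟩
  simp only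
  induction j with
  | zero => rfl
  | succ j ih =>
    simp only [DD]
    rw [← ih]

theorem prim_pow : Primrec₂ (fun a b : ℕ => a ^ b) := Primrec₂.unpaired'.mp Nat.Primrec.pow

/-- the best cofactor from a list -/
def best (l : List ℤ) (S : List (List ℤ)) : List ℤ :=
  S.foldl (fun b t =>
    if 0 < lenL (mulL l t) ∧ lenL (mulL l t) < lenL (mulL l b) then t else b) [1]

theorem prim_best : Primrec₂ best := by
  have h : Primrec (fun p : List ℤ × List (List ℤ) => p.2.foldl (fun b t =>
      if 0 < lenL (mulL p.1 t) ∧ lenL (mulL p.1 t) < lenL (mulL p.1 b) then t else b) [1]) := by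
    have h1 : Primrec (fun q : (List ℤ × List (List ℤ)) × List ℤ × List ℤ =>
        lenL (mulL q.1.1 q.2.2)) :=
      prim_lenL.comp (prim_mulL.comp (Primrec.fst.comp Primrec.fst) (Primrec.snd.comp Primrec.snd))
    have h2 : Primrec (fun q : (List ℤ × List (List ℤ)) × List ℤ × List ℤ =>
        lenL (mulL q.1.1 q.2.1)) :=
      prim_lenL.comp (prim_mulL.comp (Primrec.fst.comp Primrec.fst) (Primrec.fst.comp Primrec.snd))
    have h3 : Primrec₂ (fun (p : List ℤ × List (List ℤ)) (q : List ℤ × List ℤ) =>
        if 0 < lenL (mulL p.1 q.2) ∧ lenL (mulL p.1 q.2) < lenL (mulL p.1 q.1)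
          then q.2 else q.1) :=
      (Primrec.ite (PrimrecPred.and (Primrec.nat_lt.comp (Primrec.const 0) h1)
        (Primrec.nat_lt.comp h1 h2)) (Primrec.snd.comp Primrec.snd)
        (Primrec.fst.comp Primrec.snd)).to₂
    exact Primrec.list_foldl Primrec.snd (Primrec.const [1]) h3
  exact h

/-- the algorithm -/
def alg (l : List ℤ) : List ℤ :=
  mulL l (best l (enum (ints ((1 + lenL l) ^ (DD l.length (lenL l) (lenL l) + 1)))
    (DD l.length (lenL l) (lenL l) + 1)))

theorem prim_alg : Primrec alg := by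
  have hD : Primrec (fun l : List ℤ => DD l.length (lenL l) (lenL l) + 1) :=
    Primrec.succ.comp (prim_DD.comp (Primrec.pair (Primrec.pair Primrec.list_length prim_lenL)
      prim_lenL))
  have hH : Primrec (fun l : List ℤ => (1 + lenL l) ^ (DD l.length (lenL l) (lenL l) + 1)) :=
    prim_pow.comp (Primrec.nat_add.comp (Primrec.const 1) prim_lenL) hD
  exact prim_mulL.comp Primrec.id (prim_best.comp Primrec.id
    (prim_enum.comp (prim_ints.comp hH) hD))

/-! ### Correctness -/

theorem foldl_add_nat (l : List ℤ) (s : ℕ) :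
    l.foldl (fun s z => s + z.natAbs) s = s + ∑ i ∈ Finset.range l.length, (l.getD i 0).natAbs := by
  induction l generalizing s with
  | nil => simp
  | cons a l ih =>
    rw [List.foldl_cons, ih, List.length_cons, Finset.sum_range_succ']
    simp
    omega

theorem lenL_eq (l : List ℤ) : lenL l = len (toPoly l) := by
  unfold lenL
  rw [foldl_add_nat, zero_add, len_eq_range (n := l.length + 1)
    (Nat.lt_succ_of_le (natDegree_toPoly_le l)), Finset.sum_range_succ, toPoly_coeff,
    List.getD_eq_default _ _ le_rfl]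
  simp only [toPoly_coeff, Int.natAbs_zero, add_zero]

theorem foldl_add_int (f : ℕ → ℤ) (n : ℕ) :
    (List.range n).foldl (fun s i => s + f i) 0 = ∑ i ∈ Finset.range n, f i := by
  induction n with
  | zero => simp
  | succ n ih => rw [List.range_succ, List.foldl_append, ih, Finset.sum_range_succ]; rfl

theorem toPoly_mulL (l t : List ℤ) : toPoly (mulL l t) = toPoly l * toPoly t := by
  ext k
  rw [toPoly_coeff, coeff_mul, Finset.Nat.sum_antidiagonal_eq_sum_range_succ
    (fun i j => (toPoly l).coeff i * (toPoly t).coeff j)]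
  have hc : coefL l t k = ∑ i ∈ Finset.range k.succ, (toPoly l).coeff i * (toPoly t).coeff (k - i) := by
    unfold coefL
    rw [foldl_add_int (fun i => l.getD i 0 * t.getD (k - i) 0)]
    refine Finset.sum_congr rfl ?_
    intro i _
    rw [toPoly_coeff, toPoly_coeff]
  rw [← hc]
  unfold mulL
  by_cases hk : k < l.length + t.length
  · rw [List.getD_eq_getElem _ _ (by simpa using hk)]
    simp
  · rw [List.getD_eq_default _ _ (by simpa using hk), hc]
    symm
    refine Finset.sum_eq_zero ?_
    intro i _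
    rw [toPoly_coeff, toPoly_coeff]
    by_cases hi : i < l.length
    · rw [List.getD_eq_default t _ (by omega), mul_zero]
    · rw [List.getD_eq_default l _ (by omega), zero_mul]

theorem mem_enum {A : List ℤ} {t : List ℤ} (h : ∀ a ∈ t, a ∈ A) : t ∈ enum A t.length := by
  induction t with
  | nil => simp [enum]
  | cons a t ih =>
    have h1 := ih (fun b hb => h b (List.mem_cons_of_mem _ hb))
    change (a :: t) ∈ (enum A t.length).flatMap (fun t => A.map (fun a => a :: t))
    rw [List.mem_flatMap]
    refine ⟨t, h1, ?_⟩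
    rw [List.mem_map]
    exact ⟨a, h a (List.mem_cons_self), rfl⟩

theorem mem_ints {H : ℕ} {z : ℤ} (h : z.natAbs ≤ H) : z ∈ ints H := by
  unfold ints
  rw [List.mem_flatMap]
  refine ⟨z.natAbs, List.mem_range.mpr (by omega), ?_⟩
  unfold ofD
  rcases Int.natAbs_eq z with h | h
  · refine List.mem_cons.mpr (Or.inl ?_)
    omega
  · refine List.mem_cons.mpr (Or.inr (List.mem_cons.mpr (Or.inl ?_)))
    omega

/-- properties of the selected cofactor -/
theorem best_spec (l : List ℤ) (h1 : 0 < lenL (mulL l [1])) (S : List (List ℤ)) :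
    0 < lenL (mulL l (best l S)) ∧
      ∀ t ∈ S, 0 < lenL (mulL l t) → lenL (mulL l (best l S)) ≤ lenL (mulL l t) := by
  have key : ∀ (S : List (List ℤ)) (b : List ℤ), 0 < lenL (mulL l b) →
      0 < lenL (mulL l (S.foldl (fun b t =>
        if 0 < lenL (mulL l t) ∧ lenL (mulL l t) < lenL (mulL l b) then t else b) b)) ∧
      lenL (mulL l (S.foldl (fun b t =>
        if 0 < lenL (mulL l t) ∧ lenL (mulL l t) < lenL (mulL l b) then t else b) b)) ≤
          lenL (mulL l b) ∧
      ∀ t ∈ S, 0 < lenL (mulL l t) → lenL (mulL l (S.foldl (fun b t =>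
        if 0 < lenL (mulL l t) ∧ lenL (mulL l t) < lenL (mulL l b) then t else b) b)) ≤
          lenL (mulL l t) := by
    intro S
    induction S with
    | nil => intro b hb; exact ⟨hb, le_rfl, fun t ht => absurd ht (List.not_mem_nil)⟩
    | cons s S ih =>
      intro b hb
      rw [List.foldl_cons]
      set b' := (if 0 < lenL (mulL l s) ∧ lenL (mulL l s) < lenL (mulL l b) then s else b) with hb'
      have hpos : 0 < lenL (mulL l b') := by
        rw [hb']; split_ifs with h
        · exact h.1
        · exact hb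
      have hle : lenL (mulL l b') ≤ lenL (mulL l b) := by
        rw [hb']; split_ifs with h
        · exact h.2.le
        · exact le_rfl
      have hles : 0 < lenL (mulL l s) → lenL (mulL l b') ≤ lenL (mulL l s) := by
        intro hs
        rw [hb']; split_ifs with h
        · exact le_rfl
        · push Not at h
          exact h hs
      obtain ⟨k1, k2, k3⟩ := ih b' hpos
      refine ⟨k1, k2.trans hle, ?_⟩
      intro t ht htpos
      rcases List.mem_cons.mp ht with rfl | ht
      · exact k2.trans (hles htpos)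
      · exact k3 t ht htpos
  obtain ⟨k1, _, k3⟩ := key S [1] h1
  exact ⟨k1, k3⟩

theorem toPoly_one : toPoly [1] = 1 := by
  unfold toPoly
  simp

theorem alg_spec (l : List ℤ) (hirr : Irreducible (toPoly l)) (hdeg : 0 < (toPoly l).natDegree)
    (h1 : (toPoly l).leadingCoeff ≠ 1) (h2 : (toPoly l).leadingCoeff ≠ -1) :
    IsMin (toPoly l) (toPoly (alg l)) := by
  set P := toPoly l with hP
  set L := lenL l with hL
  have hLP : len P = L := (lenL_eq l).symm
  set D := DD l.length L L with hD
  obtain ⟨F, hF, hF0⟩ := exists_min hirr h1 h2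
  have hFdeg := degree_bound hirr hdeg h1 h2 hF hF0 (natDegree_toPoly_le l) hLP.le
  obtain ⟨hFne, ⟨T, hT⟩, hmin⟩ := hF
  have hTne : T ≠ 0 := by rintro rfl; exact hFne (by rw [hT, mul_zero])
  have hTdeg : T.natDegree ≤ D := by
    have : F.natDegree = P.natDegree + T.natDegree := by
      rw [hT, natDegree_mul hirr.ne_zero hTne]
    omega
  have hTc : ∀ k, (T.coeff k).natAbs ≤ (1 + L) ^ (D + 1) := by
    intro k
    have hlF : len (P * T) ≤ L := by rw [← hT, ← hLP]; exact hmin P hirr.ne_zero dvd_rfl
    exact cofactor_bound hirr.ne_zero hLP.le hlF D k (by omega)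
  let t : List ℤ := (List.range (D + 1)).map (fun i => T.coeff i)
  have htlen : t.length = D + 1 := by simp [t]
  have htP : toPoly t = T := by
    ext k
    rw [toPoly_coeff]
    by_cases hk : k < D + 1
    · rw [List.getD_eq_getElem _ _ (by rw [htlen]; exact hk)]
      simp [t]
    · rw [List.getD_eq_default _ _ (by rw [htlen]; omega),
        coeff_eq_zero_of_natDegree_lt (by omega)]
  have htmem : t ∈ enum (ints ((1 + L) ^ (D + 1))) (D + 1) := by
    rw [← htlen]
    refine mem_enum ?_
    intro a ha
    rw [htlen]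
    simp only [t, List.mem_map] at ha
    obtain ⟨i, _, rfl⟩ := ha
    exact mem_ints (hTc i)
  have hpos1 : 0 < lenL (mulL l [1]) := by
    rw [lenL_eq, toPoly_mulL, toPoly_one, mul_one]
    exact len_pos hirr.ne_zero
  obtain ⟨k1, k2⟩ := best_spec l hpos1 (enum (ints ((1 + L) ^ (D + 1))) (D + 1))
  have htl : lenL (mulL l t) = len F := by rw [lenL_eq, toPoly_mulL, htP, hT]
  have k3 := k2 t htmem (by rw [htl]; exact len_pos hFne)
  have hA : toPoly (alg l) = P * toPoly (best l (enum (ints ((1 + L) ^ (D + 1))) (D + 1))) := by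
    unfold alg
    rw [toPoly_mulL]
  have hAl : len (toPoly (alg l)) = lenL (mulL l (best l (enum (ints ((1 + L) ^ (D + 1))) (D + 1)))) := by
    rw [lenL_eq]
    rfl
  refine ⟨?_, ?_, ?_⟩
  · intro h
    rw [← hAl, h] at k1
    simp [len] at k1
  · rw [hA]; exact dvd_mul_right _ _
  · intro G hG hPG
    rw [hAl]
    rw [htl] at k3
    exact k3.trans (hmin G hG hPG)

end Pool.Agent.V5helper47.MinLen
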