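import Pool.Agent.V5helper47.MinLen.Gap

/-! Degrees and cofactors of minimum-length multiples. -/

namespace Pool.Agent.V5helper47.MinLen

open Polynomial

/-- `F` is a minimum-length multiple of `P` -/
def IsMin (P F : ℤ[X]) : Prop := F ≠ 0 ∧ P ∣ F ∧ ∀ G : ℤ[X], G ≠ 0 → P ∣ G → len F ≤ len G

theorem len_pos {F : ℤ[X]} (h : F ≠ 0) : 0 < len F := by
  unfold len
  refine Finset.sum_pos ?_ (support_nonempty.mpr h)
  intro i hi
  exact Int.natAbs_pos.mpr (mem_support_iff.mp hi)

theorem card_support_le (F : ℤ[X]) : F.support.card ≤ len F := by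
  unfold len
  rw [Finset.card_eq_sum_ones]
  refine Finset.sum_le_sum ?_
  intro i hi
  exact Int.natAbs_pos.mpr (mem_support_iff.mp hi)

theorem coeff_le_len (F : ℤ[X]) (i : ℕ) : (F.coeff i).natAbs ≤ len F := by
  by_cases h : i ∈ F.support
  · unfold len
    exact Finset.single_le_sum (f := fun i => (F.coeff i).natAbs) (fun _ _ => Nat.zero_le _) h
  · rw [notMem_support_iff] at h
    rw [h]
    exact Nat.zero_le _

/-- degree bounds -/
def DD (s l : ℕ) : ℕ → ℕ
  | 0 => 0
  | j + 1 => DD s l j + (2 * DD s l j + 1) * (l * s)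

theorem DD_mono {s l i j : ℕ} (h : i ≤ j) : DD s l i ≤ DD s l j := by
  induction h with
  | refl => exact le_rfl
  | step _ ih => exact ih.trans (Nat.le_add_right _ _)

theorem pow_bound {l r d k : ℕ} (h : 2 ^ k ≤ (l ^ (2 * r + 1)) ^ d) : k ≤ (2 * r + 1) * (l * d) := by
  have h1 : (l ^ (2 * r + 1)) ^ d ≤ 2 ^ ((2 * r + 1) * (l * d)) := by
    rw [← pow_mul]
    calc l ^ ((2 * r + 1) * d) ≤ (2 ^ l) ^ ((2 * r + 1) * d) :=
          Nat.pow_le_pow_left (Nat.lt_two_pow_self).le _
      _ = 2 ^ ((2 * r + 1) * (l * d)) := by rw [← pow_mul]; congr 1; ring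
  exact (Nat.pow_le_pow_iff_right (by norm_num)).mp (h.trans h1)

theorem degree_bound {P : ℤ[X]} (hirr : Irreducible P) (hdeg : 0 < P.natDegree)
    (h1 : P.leadingCoeff ≠ 1) (h2 : P.leadingCoeff ≠ -1) {F : ℤ[X]} (hF : IsMin P F)
    (h0 : F.coeff 0 ≠ 0) {s l : ℕ} (hs : P.natDegree ≤ s) (hl : len P ≤ l) :
    F.natDegree ≤ DD s l l := by
  classical
  obtain ⟨hF0, hPF, hmin⟩ := hF
  have hFl : len F ≤ l := (hmin P hirr.ne_zero dvd_rfl).trans hl
  by_contra hc
  push Not at hc
  set N := F.natDegree with hN
  have key : ∀ j, j ≤ l → j + 1 ≤ (F.support.filter (fun i => N - DD s l j ≤ i)).card := by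
    intro j
    induction j with
    | zero =>
      intro _
      rw [Nat.succ_le_iff, Finset.card_pos]
      exact ⟨N, Finset.mem_filter.mpr ⟨natDegree_mem_support_of_nonzero hF0, Nat.sub_le _ _⟩⟩
    | succ j ih =>
      intro hj
      have ih := ih (by omega)
      have hDj : DD s l j < N := lt_of_le_of_lt (DD_mono (by omega)) hc
      set D := DD s l j with hD
      set n := N - D with hn
      have hn1 : 1 ≤ n := by omega
      let G : ℤ[X] := ∑ i ∈ Finset.range (D + 1), monomial i (F.coeff (n + i))
      let H : ℤ[X] := ∑ i ∈ Finset.range n, monomial i (F.coeff i)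
      have hGc : ∀ i, G.coeff i = if i < D + 1 then F.coeff (n + i) else 0 := by
        intro i
        simp only [G, finsetSum_coeff, coeff_monomial]
        rw [Finset.sum_ite_eq']
        simp only [Finset.mem_range]
      have hHc : ∀ i, H.coeff i = if i < n then F.coeff i else 0 := by
        intro i
        simp only [H, finsetSum_coeff, coeff_monomial]
        rw [Finset.sum_ite_eq']
        simp only [Finset.mem_range]
      have hsplit : G * X ^ n + H = F := by
        ext i
        rw [coeff_add, coeff_mul_X_pow', hGc, hHc]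
        by_cases hi : n ≤ i
        · have e : (if i < n then F.coeff i else 0) = 0 := if_neg (by omega)
          rw [if_pos hi, e, add_zero]
          by_cases hi2 : i - n < D + 1
          · rw [if_pos hi2]; congr 1; omega
          · rw [if_neg hi2, coeff_eq_zero_of_natDegree_lt (by omega)]
        · rw [if_neg hi, if_pos (by omega), zero_add]
      have hGdeg : G.natDegree ≤ D := by
        rw [natDegree_le_iff_coeff_eq_zero]
        intro i hi
        rw [hGc, if_neg (by omega)]
      have hHdeg : H.natDegree < n := by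
        refine lt_of_le_of_lt (b := n - 1) ?_ (by omega)
        rw [natDegree_le_iff_coeff_eq_zero]
        intro i hi
        rw [hHc, if_neg (by omega)]
      have hH0 : H ≠ 0 := by
        intro h
        have := hHc 0
        rw [h, coeff_zero, if_pos (by omega)] at this
        exact h0 this.symm
      have hG0 : G ≠ 0 := by
        intro h
        have := hGc D
        rw [h, coeff_zero, if_pos (by omega), show n + D = N by omega] at this
        exact (leadingCoeff_ne_zero.mpr hF0) this.symm
      have hlen : len F = len H + len G := by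
        rw [len_eq_range (show F.natDegree < n + (D + 1) by omega), Finset.sum_range_add,
          len_eq_range hHdeg, len_eq_range (lt_of_le_of_lt hGdeg (Nat.lt_succ_self D))]
        congr 1
        · refine Finset.sum_congr rfl ?_
          intro i hi
          rw [hHc, if_pos (Finset.mem_range.mp hi)]
        · refine Finset.sum_congr rfl ?_
          intro i hi
          rw [hGc, if_pos (Finset.mem_range.mp hi)]
      have hHpos := len_pos hH0
      have hPG : ¬ P ∣ G := by
        intro h
        have := hmin G hG0 h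
        omega
      have hgap := gap hirr hdeg h1 h2 (hsplit ▸ hPF) hPG hHdeg.le hGdeg (l := l)
        (by omega) hl
      have hgap2 := pow_bound hgap
      have hgap3 : (2 * D + 1) * (l * P.natDegree) ≤ (2 * D + 1) * (l * s) :=
        Nat.mul_le_mul_left _ (Nat.mul_le_mul_left _ hs)
      have hm : F.coeff H.natDegree ≠ 0 := by
        have := hHc H.natDegree
        rw [if_pos hHdeg] at this
        rw [← this]
        exact leadingCoeff_ne_zero.mpr hH0
      have hDs : DD s l (j + 1) = D + (2 * D + 1) * (l * s) := rfl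
      have hsub : insert H.natDegree (F.support.filter (fun i => n ≤ i)) ⊆
          F.support.filter (fun i => N - DD s l (j + 1) ≤ i) := by
        intro i hi
        rcases Finset.mem_insert.mp hi with rfl | hi
        · refine Finset.mem_filter.mpr ⟨mem_support_iff.mpr hm, ?_⟩
          rw [hDs]; omega
        · obtain ⟨hi1, hi2⟩ := Finset.mem_filter.mp hi
          refine Finset.mem_filter.mpr ⟨hi1, ?_⟩
          rw [hDs]; omega
      have hnot : H.natDegree ∉ F.support.filter (fun i => n ≤ i) := by
        intro h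
        have := (Finset.mem_filter.mp h).2
        omega
      have := Finset.card_le_card hsub
      rw [Finset.card_insert_of_notMem hnot] at this
      omega
  have h3 := key l le_rfl
  have h4 : (F.support.filter (fun i => N - DD s l l ≤ i)).card ≤ F.support.card :=
    Finset.card_le_card (Finset.filter_subset _ _)
  have h5 := card_support_le F
  omega

/-- coefficients of the cofactor -/
theorem cofactor_bound {P T : ℤ[X]} (hP0 : P ≠ 0) {l : ℕ} (hPl : len P ≤ l)
    (hF : len (P * T) ≤ l) : ∀ j k, T.natDegree ≤ k + j → (T.coeff k).natAbs ≤ (1 + l) ^ (j + 1) := by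
  have hcoef : ∀ k, (P * T).coeff (k + P.natDegree) = P.leadingCoeff * T.coeff k +
      ∑ i ∈ Finset.range P.natDegree, P.coeff i * T.coeff (k + (P.natDegree - i)) := by
    intro k
    rw [coeff_mul, Finset.Nat.sum_antidiagonal_eq_sum_range_succ (fun i j => P.coeff i * T.coeff j),
      show (k + P.natDegree).succ = P.natDegree + (k + 1) by omega, Finset.sum_range_add,
      Finset.sum_range_succ']
    have e1 : ∑ i ∈ Finset.range k, P.coeff (P.natDegree + (i + 1)) *
        T.coeff (k + P.natDegree - (P.natDegree + (i + 1))) = 0 := by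
      refine Finset.sum_eq_zero ?_
      intro i _
      rw [coeff_eq_zero_of_natDegree_lt (by omega), zero_mul]
    rw [e1, zero_add, add_zero, show k + P.natDegree - P.natDegree = k by omega, add_comm]
    congr 1
    refine Finset.sum_congr rfl ?_
    intro i hi
    rw [Finset.mem_range] at hi
    congr 2; omega
  have hlc : 1 ≤ P.leadingCoeff.natAbs := by
    have : P.leadingCoeff ≠ 0 := leadingCoeff_ne_zero.mpr hP0
    omega
  have hsumP : ∑ i ∈ Finset.range P.natDegree, (P.coeff i).natAbs ≤ l := by
    have h := len_eq_range (F := P) (Nat.lt_succ_self P.natDegree)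
    rw [Finset.sum_range_succ] at h
    omega
  intro j
  induction j with
  | zero =>
    intro k hk
    rw [zero_add, pow_one]
    rw [add_zero] at hk
    have h1 := hcoef k
    have h2 : ∑ i ∈ Finset.range P.natDegree, P.coeff i * T.coeff (k + (P.natDegree - i)) = 0 := by
      refine Finset.sum_eq_zero ?_
      intro i hi
      rw [Finset.mem_range] at hi
      rw [coeff_eq_zero_of_natDegree_lt (show T.natDegree < k + (P.natDegree - i) by omega), mul_zero]
    rw [h2, add_zero] at h1
    have h3 := coeff_le_len (P * T) (k + P.natDegree)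
    rw [h1, Int.natAbs_mul] at h3
    have h4 : 1 * (T.coeff k).natAbs ≤ P.leadingCoeff.natAbs * (T.coeff k).natAbs :=
      Nat.mul_le_mul_right _ hlc
    omega
  | succ j ih =>
    intro k hk
    have h1 := hcoef k
    have h2 : (∑ i ∈ Finset.range P.natDegree, P.coeff i * T.coeff (k + (P.natDegree - i))).natAbs
        ≤ l * (1 + l) ^ (j + 1) := by
      refine (Int.natAbs_sum_le _ _).trans ?_
      calc ∑ i ∈ Finset.range P.natDegree, (P.coeff i * T.coeff (k + (P.natDegree - i))).natAbs
          ≤ ∑ i ∈ Finset.range P.natDegree, (P.coeff i).natAbs * (1 + l) ^ (j + 1) := by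
            refine Finset.sum_le_sum ?_
            intro i hi
            rw [Finset.mem_range] at hi
            rw [Int.natAbs_mul]
            exact Nat.mul_le_mul_left _ (ih _ (by omega))
        _ = (∑ i ∈ Finset.range P.natDegree, (P.coeff i).natAbs) * (1 + l) ^ (j + 1) := by
            rw [Finset.sum_mul]
        _ ≤ l * (1 + l) ^ (j + 1) := Nat.mul_le_mul_right _ hsumP
    have h3 := coeff_le_len (P * T) (k + P.natDegree)
    have h5 : P.leadingCoeff * T.coeff k = (P * T).coeff (k + P.natDegree) -
        ∑ i ∈ Finset.range P.natDegree, P.coeff i * T.coeff (k + (P.natDegree - i)) := by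
      rw [h1]; ring
    have h6 : (P.leadingCoeff * T.coeff k).natAbs ≤ l + l * (1 + l) ^ (j + 1) := by
      rw [h5]
      refine (Int.natAbs_sub_le _ _).trans ?_
      omega
    rw [Int.natAbs_mul] at h6
    have h4 : 1 * (T.coeff k).natAbs ≤ P.leadingCoeff.natAbs * (T.coeff k).natAbs :=
      Nat.mul_le_mul_right _ hlc
    have h7 : 1 ≤ (1 + l) ^ (j + 1) := Nat.one_le_pow _ _ (by omega)
    have h8 : (1 + l) ^ (j + 1 + 1) = (1 + l) ^ (j + 1) + l * (1 + l) ^ (j + 1) := by ring
    have h9 : l ≤ (1 + l) ^ (j + 1) := by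
      calc l ≤ (1 + l) ^ 1 := by rw [pow_one]; omega
        _ ≤ (1 + l) ^ (j + 1) := Nat.pow_le_pow_right (by omega) (by omega)
    omega

/-- There is a minimum-length multiple with nonzero constant coefficient. -/
theorem exists_min {P : ℤ[X]} (hirr : Irreducible P)
    (h1 : P.leadingCoeff ≠ 1) (h2 : P.leadingCoeff ≠ -1) :
    ∃ F, IsMin P F ∧ F.coeff 0 ≠ 0 := by
  classical
  have hex : ∃ n, ∃ F : ℤ[X], F ≠ 0 ∧ P ∣ F ∧ len F = n := ⟨_, P, hirr.ne_zero, dvd_rfl, rfl⟩
  have hex2 : ∃ d, ∃ F : ℤ[X], IsMin P F ∧ F.natDegree = d := by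
    obtain ⟨F, hF0, hPF, hlen⟩ := Nat.find_spec hex
    refine ⟨_, F, ⟨hF0, hPF, ?_⟩, rfl⟩
    intro G hG0 hPG
    rw [hlen]
    exact Nat.find_min' hex ⟨G, hG0, hPG, rfl⟩
  obtain ⟨F, hF, hd⟩ := Nat.find_spec hex2
  refine ⟨F, hF, ?_⟩
  intro h0
  obtain ⟨F', rfl⟩ : X ∣ F := X_dvd_iff.mpr h0
  obtain ⟨hF0, hPF, hmin⟩ := hF
  have hF'0 : F' ≠ 0 := right_ne_zero_of_mul hF0
  have hprime : Prime P := hirr.prime
  have hPX : ¬ P ∣ X := by
    intro h
    have hassoc : Associated P X := (hprime.dvd_prime_iff_associated prime_X).mp h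
    obtain ⟨u, hu⟩ := hassoc
    obtain ⟨c, hc, hcu⟩ := Polynomial.isUnit_iff.mp u.isUnit
    rw [← hcu] at hu
    have := congrArg leadingCoeff hu
    rw [leadingCoeff_mul, leadingCoeff_C, leadingCoeff_X] at this
    rcases Int.isUnit_iff.mp hc with rfl | rfl
    · exact h1 (by simpa using this)
    · exact h2 (by omega)
  have hPF' : P ∣ F' := (hprime.dvd_or_dvd hPF).resolve_left hPX
  have hlen : len (X * F') = len F' := by
    rw [len_eq_range (Nat.lt_succ_self _), natDegree_X_mul hF'0, Finset.sum_range_succ',
      len_eq_range (Nat.lt_succ_self _)]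
    simp [coeff_X_mul]
  have hmin' : IsMin P F' := ⟨hF'0, hPF', fun G hG hPG => hlen ▸ hmin G hG hPG⟩
  have h3 := Nat.find_min' hex2 ⟨F', hmin', rfl⟩
  rw [← hd, natDegree_X_mul hF'0] at h3
  omega

end Pool.Agent.V5helper47.MinLen
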