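import Mathlib

/-! Gaps in multiples of nonmonic irreducible polynomials. -/

namespace Pool.Agent.V5helper47.MinLen

open Polynomial NumberField IsDedekindDomain

/-- the length of a polynomial -/
def len (F : ℤ[X]) : ℕ := ∑ i ∈ F.support, (F.coeff i).natAbs

/-- sum over a range -/
theorem len_eq_range {F : ℤ[X]} {n : ℕ} (h : F.natDegree < n) :
    len F = ∑ i ∈ Finset.range n, (F.coeff i).natAbs := by
  unfold len
  refine Finset.sum_subset ?_ ?_
  · intro i hi
    rw [Finset.mem_range]
    exact lt_of_le_of_lt (le_natDegree_of_mem_supp i hi) h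
  · intro i _ hi
    rw [notMem_support_iff] at hi
    rw [hi]; rfl

theorem norm_int (n : ℤ) : ‖(n : ℂ)‖ = (n.natAbs : ℝ) := by
  rw [Complex.norm_intCast, ← Int.cast_abs, Int.abs_eq_natAbs, Int.cast_natCast]

/-- complex zeros are bounded -/
theorem root_bound {P : ℤ[X]} (hP : 0 < P.natDegree) {z : ℂ} (hz : aeval z P = 0) :
    ‖z‖ ≤ len P := by
  have hP0 : P ≠ 0 := by rintro rfl; simp at hP
  have hlen : len P = ∑ i ∈ Finset.range P.natDegree, (P.coeff i).natAbs + (P.leadingCoeff).natAbs := by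
    rw [len_eq_range (Nat.lt_succ_self _), Finset.sum_range_succ]
    rfl
  have hlc : 1 ≤ (P.leadingCoeff).natAbs := by
    have : P.leadingCoeff ≠ 0 := leadingCoeff_ne_zero.mpr hP0
    omega
  by_cases h1 : ‖z‖ ≤ 1
  · refine h1.trans ?_
    have : 1 ≤ len P := by omega
    exact_mod_cast this
  · push Not at h1
    have h2 : (P.leadingCoeff : ℂ) * z ^ P.natDegree =
        - ∑ i ∈ Finset.range P.natDegree, (P.coeff i : ℂ) * z ^ i := by
      rw [aeval_eq_sum_range, Finset.sum_range_succ] at hz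
      have : ∑ i ∈ Finset.range P.natDegree, (P.coeff i : ℂ) * z ^ i +
          (P.leadingCoeff : ℂ) * z ^ P.natDegree = 0 := by
        simpa [zsmul_eq_mul] using hz
      linear_combination this
    have h3 : ‖(P.leadingCoeff : ℂ) * z ^ P.natDegree‖ ≤
        ∑ i ∈ Finset.range P.natDegree, ((P.coeff i).natAbs : ℝ) * ‖z‖ ^ (P.natDegree - 1) := by
      rw [h2, norm_neg]
      refine (norm_sum_le _ _).trans (Finset.sum_le_sum ?_)
      intro i hi
      rw [Finset.mem_range] at hi
      rw [norm_mul, norm_pow, norm_int]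
      refine mul_le_mul_of_nonneg_left ?_ (by positivity)
      exact pow_le_pow_right₀ h1.le (by omega)
    rw [← Finset.sum_mul, norm_mul, norm_pow, norm_int] at h3
    have h4 : ‖z‖ ^ P.natDegree = ‖z‖ ^ (P.natDegree - 1) * ‖z‖ := by
      rw [← pow_succ]; congr 1; omega
    have h5 : (0 : ℝ) < ‖z‖ ^ (P.natDegree - 1) := by positivity
    have h6 : ((P.leadingCoeff).natAbs : ℝ) * ‖z‖ ≤
        ∑ i ∈ Finset.range P.natDegree, ((P.coeff i).natAbs : ℝ) := by
      rw [h4] at h3
      by_contra hc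
      push Not at hc
      have := mul_lt_mul_of_pos_right hc h5
      nlinarith
    have h7 : (1 : ℝ) ≤ ((P.leadingCoeff).natAbs : ℝ) := by exact_mod_cast hlc
    have h8 : ‖z‖ ≤ ((P.leadingCoeff).natAbs : ℝ) * ‖z‖ := by nlinarith [norm_nonneg z]
    have h9 : (len P : ℝ) = ∑ i ∈ Finset.range P.natDegree, ((P.coeff i).natAbs : ℝ) +
        ((P.leadingCoeff).natAbs : ℝ) := by rw [hlen]; push_cast; rfl
    linarith

section field

variable {P : ℤ[X]} (hirr : Irreducible P) (hdeg : 0 < P.natDegree)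

/-- a zero of a nonmonic irreducible polynomial is not integral -/
theorem not_integral {K : Type*} [Field K] [CharZero K] (hirr : Irreducible P)
    (h1 : P.leadingCoeff ≠ 1) (h2 : P.leadingCoeff ≠ -1) {x : K} (hx : aeval x P = 0) :
    ¬ IsIntegral ℤ x := by
  intro hint
  have hd : minpoly ℤ x ∣ P := (minpoly.isIntegrallyClosed_dvd_iff hint P).mp hx
  obtain ⟨Q, hQ⟩ := hd
  have hm := minpoly.monic hint
  have hnu : ¬ IsUnit (minpoly ℤ x) := minpoly.not_isUnit ℤ x
  rcases hirr.isUnit_or_isUnit hQ with h | h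
  · exact hnu h
  · have hlc : P.leadingCoeff = Q.leadingCoeff := by
      rw [hQ, leadingCoeff_mul, hm.leadingCoeff, one_mul]
    obtain ⟨c, hc, rfl⟩ := Polynomial.isUnit_iff.mp h
    rw [leadingCoeff_C] at hlc
    rcases Int.isUnit_iff.mp hc with rfl | rfl
    · exact h1 hlc
    · exact h2 hlc

end field

/-- The gap inequality. -/
theorem gap {P : ℤ[X]} (hirr : Irreducible P) (hdeg : 0 < P.natDegree)
    (h1 : P.leadingCoeff ≠ 1) (h2 : P.leadingCoeff ≠ -1) {G H : ℤ[X]} {n r l : ℕ}
    (hdvd : P ∣ G * X ^ n + H) (hG : ¬ P ∣ G) (hH : H.natDegree ≤ n) (hr : G.natDegree ≤ r)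
    (hGl : len G ≤ l) (hPl : len P ≤ l) :
    2 ^ (n - H.natDegree) ≤ ((l ^ (2 * r + 1)) ^ P.natDegree : ℕ) := by
  have hprim : P.IsPrimitive := hirr.isPrimitive hdeg.ne'
  have hirrQ : Irreducible (P.map (Int.castRingHom ℚ)) :=
    (IsPrimitive.Int.irreducible_iff_irreducible_map_cast hprim).mp hirr
  have : Fact (Irreducible (P.map (Int.castRingHom ℚ))) := ⟨hirrQ⟩
  let K := AdjoinRoot (P.map (Int.castRingHom ℚ))
  have hfin : FiniteDimensional ℚ K := (AdjoinRoot.powerBasis hirrQ.ne_zero).finite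
  have hchar : CharZero K := algebraRat.charZero K
  have hNF : NumberField K := { to_charZero := hchar, to_finiteDimensional := hfin }
  have hrank : Module.finrank ℚ K = P.natDegree := by
    rw [(AdjoinRoot.powerBasis hirrQ.ne_zero).finrank, AdjoinRoot.powerBasis_dim,
      natDegree_map_eq_of_injective (RingHom.injective_int _)]
  let α : K := AdjoinRoot.root (P.map (Int.castRingHom ℚ))
  have hα : aeval α P = 0 := by
    have := AdjoinRoot.eval₂_root (P.map (Int.castRingHom ℚ))
    rw [eval₂_map] at this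
    rw [aeval_def, ← this]
    congr 1
  have hdvd_iff : ∀ F : ℤ[X], aeval α F = 0 → P ∣ F := by
    intro F hF
    have h3 : P.map (Int.castRingHom ℚ) ∣ F.map (Int.castRingHom ℚ) := by
      have h4 : aeval α (F.map (Int.castRingHom ℚ)) = 0 := by
        rw [aeval_def, eval₂_map, ← hF, aeval_def]
        congr 1
      have h5 : aeval α (F.map (Int.castRingHom ℚ)) = AdjoinRoot.mk _ (F.map (Int.castRingHom ℚ)) :=
        AdjoinRoot.aeval_eq _
      rw [h5, AdjoinRoot.mk_eq_zero] at h4
      exact h4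
    exact (IsPrimitive.Int.dvd_iff_map_cast_dvd_map_cast P F hprim).mpr h3
  have hGα : aeval α G ≠ 0 := fun h => hG (hdvd_iff G h)
  have hrel : aeval α G * α ^ n = - aeval α H := by
    obtain ⟨T, hT⟩ := hdvd
    have h3 := congrArg (aeval α) hT
    rw [map_mul, hα, zero_mul, map_add, map_mul, map_pow, aeval_X] at h3
    linear_combination h3
  -- a place where `α` is not integral
  have hnint : ¬ IsIntegral ℤ α := not_integral hirr h1 h2 hα
  obtain ⟨v, hv⟩ : ∃ v : HeightOneSpectrum (𝓞 K), 1 < v.valuation K α := by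
    by_contra hc
    push Not at hc
    obtain ⟨y, hy⟩ := HeightOneSpectrum.mem_integers_of_valuation_le_one K α hc
    exact hnint (hy ▸ y.2)
  -- the integral multiple of `G(α)`
  set a : ℤ := P.leadingCoeff with ha
  have hβ : IsIntegral ℤ ((a : K) * α) := by
    have := isIntegral_leadingCoeff_smul P α hα
    rwa [zsmul_eq_mul] at this
  let β : 𝓞 K := ⟨(a : K) * α, hβ⟩
  let γ : 𝓞 K := ∑ i ∈ Finset.range (r + 1), (G.coeff i : 𝓞 K) * (a : 𝓞 K) ^ (r - i) * β ^ i
  have hγ : (γ : K) = (a : K) ^ r * aeval α G := by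
    have e1 : (γ : K) = ∑ i ∈ Finset.range (r + 1), (G.coeff i : K) * (a : K) ^ (r - i) * ((a : K) * α) ^ i := by
      simp only [γ, map_sum, map_mul, map_pow, map_intCast]
      rfl
    rw [e1, aeval_eq_sum_range' (lt_of_le_of_lt hr (Nat.lt_succ_self r)), Finset.mul_sum]
    refine Finset.sum_congr rfl ?_
    intro i hi
    rw [Finset.mem_range] at hi
    rw [zsmul_eq_mul, mul_pow]
    have e2 : (a : K) ^ r = (a : K) ^ (r - i) * (a : K) ^ i := by rw [← pow_add]; congr 1; omega
    rw [e2]; ring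
  have ha0 : (a : K) ≠ 0 := by
    have : a ≠ 0 := leadingCoeff_ne_zero.mpr hirr.ne_zero
    exact_mod_cast this
  have hγ0 : γ ≠ 0 := by
    intro h
    have : (γ : K) = 0 := by rw [h]; rfl
    rw [hγ] at this
    exact (mul_ne_zero (pow_ne_zero _ ha0) hGα) this
  -- valuations
  have hint : ∀ z : ℤ, v.valuation K (z : K) ≤ 1 := by
    intro z
    have := v.valuation_le_one (K := K) (z : 𝓞 K)
    simpa using this
  have hα1 : v.valuation K α ≠ 0 := (lt_trans zero_lt_one hv).ne'
  have hHv : v.valuation K (aeval α H) ≤ v.valuation K α ^ H.natDegree := by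
    rw [aeval_eq_sum_range]
    refine Valuation.map_sum_le _ ?_
    intro i hi
    rw [Finset.mem_range] at hi
    have e0 : H.coeff i • α ^ i = (H.coeff i : K) * α ^ i := by
      rw [Algebra.smul_def]; rfl
    rw [e0, map_mul, map_pow]
    calc v.valuation K (H.coeff i : K) * v.valuation K α ^ i ≤ 1 * v.valuation K α ^ i :=
          mul_le_mul_left (hint _) _
      _ = v.valuation K α ^ i := one_mul _
      _ ≤ v.valuation K α ^ H.natDegree := pow_le_pow_right₀ hv.le (by omega)
  have hγv : v.valuation K (γ : K) * v.valuation K α ^ n ≤ v.valuation K α ^ H.natDegree := by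
    have e1 : (γ : K) * α ^ n = (a : K) ^ r * (- aeval α H) := by rw [hγ, ← hrel]; ring
    have e2 : v.valuation K (γ : K) * v.valuation K α ^ n =
        v.valuation K (a : K) ^ r * v.valuation K (aeval α H) := by
      rw [← map_pow, ← map_mul, e1, map_mul, map_pow, Valuation.map_neg]
    rw [e2]
    calc v.valuation K (a : K) ^ r * v.valuation K (aeval α H)
        ≤ 1 * v.valuation K (aeval α H) := mul_le_mul_left (pow_le_one₀ zero_le (hint a)) _
      _ = v.valuation K (aeval α H) := one_mul _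
      _ ≤ _ := hHv
  set k := n - H.natDegree with hk
  have hγv2 : v.valuation K (γ : K) * v.valuation K α ^ k ≤ 1 := by
    have e : v.valuation K α ^ n = v.valuation K α ^ k * v.valuation K α ^ H.natDegree := by
      rw [← pow_add]; congr 1; omega
    rw [e, ← mul_assoc] at hγv
    by_contra hc
    push Not at hc
    have h3 : (0 : WithZero (Multiplicative ℤ)) < v.valuation K α ^ H.natDegree :=
      pow_pos (lt_trans zero_lt_one hv) _
    have := mul_lt_mul_of_pos_right hc h3
    rw [one_mul] at this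
    exact absurd (lt_of_lt_of_le this hγv) (lt_irrefl _)
  have hexp : WithZero.exp (1 : ℤ) ≤ v.valuation K α := by
    have h3 : v.valuation K α = WithZero.exp (WithZero.log (v.valuation K α)) :=
      (WithZero.exp_log hα1).symm
    rw [h3]
    rw [h3, ← WithZero.exp_zero, WithZero.exp_lt_exp] at hv
    rw [WithZero.exp_le_exp]
    omega
  have hγv3 : v.intValuation γ ≤ WithZero.exp (-(k : ℤ)) := by
    rw [← HeightOneSpectrum.valuation_of_algebraMap (K := K)]
    have h3 : v.valuation K (γ : K) * WithZero.exp (k : ℤ) ≤ 1 := by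
      have : WithZero.exp (k : ℤ) ≤ v.valuation K α ^ k := by
        have e : WithZero.exp (k : ℤ) = (WithZero.exp (1 : ℤ)) ^ k := by
          rw [← WithZero.exp_nsmul]; simp
        rw [e]
        exact pow_le_pow_left₀ zero_le hexp k
      exact (mul_le_mul_right this _).trans hγv2
    have h4 : WithZero.exp (-(k : ℤ)) * WithZero.exp (k : ℤ) = 1 := by
      rw [← WithZero.exp_add]; simp
    have h5 : (0 : WithZero (Multiplicative ℤ)) < WithZero.exp (k : ℤ) := WithZero.exp_pos
    rw [← h4] at h3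
    exact le_of_mul_le_mul_right h3 h5
  have hmem : γ ∈ v.asIdeal ^ k := (v.intValuation_le_pow_iff_mem γ k).mp hγv3
  -- norms
  have hnorm1 : 2 ^ k ≤ (Algebra.norm ℤ γ).natAbs := by
    have h3 : Ideal.absNorm (v.asIdeal ^ k) ∣ Ideal.absNorm (Ideal.span {γ}) :=
      Ideal.absNorm_dvd_absNorm_of_le ((Ideal.span_singleton_le_iff_mem _).mpr hmem)
    rw [Ideal.absNorm_span_singleton, map_pow] at h3
    have h4 : (Algebra.norm ℤ γ).natAbs ≠ 0 := by
      rw [Int.natAbs_ne_zero]
      exact Algebra.norm_ne_zero_iff.mpr hγ0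
    have h5 : 2 ≤ Ideal.absNorm v.asIdeal := by
      have h6 : Ideal.absNorm v.asIdeal ≠ 0 := by
        intro h
        exact v.ne_bot (Ideal.absNorm_eq_zero_iff.mp h)
      have h7 : Ideal.absNorm v.asIdeal ≠ 1 := by
        intro h
        exact v.isPrime.ne_top (Ideal.absNorm_eq_one_iff.mp h)
      omega
    exact (Nat.pow_le_pow_left h5 k).trans (Nat.le_of_dvd (Nat.pos_of_ne_zero h4) h3)
  have hnorm2 : (Algebra.norm ℤ γ).natAbs ≤ (l ^ (2 * r + 1)) ^ P.natDegree := by
    have e1 : ((Algebra.norm ℤ γ : ℤ) : ℚ) = Algebra.norm ℚ (γ : K) := Algebra.coe_norm_int γ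
    have e2 := Algebra.norm_eq_prod_embeddings ℚ ℂ (γ : K)
    rw [← e1] at e2
    have e3 : (((Algebra.norm ℤ γ).natAbs : ℕ) : ℝ) = ∏ σ : K →ₐ[ℚ] ℂ, ‖σ (γ : K)‖ := by
      rw [← norm_prod, ← e2, ← norm_int]
      congr 1
    have hσ : ∀ σ : K →ₐ[ℚ] ℂ, ‖σ (γ : K)‖ ≤ (l : ℝ) ^ (2 * r + 1) := by
      intro σ
      have hl1 : (1 : ℝ) ≤ l := by
        have h3 : 1 ≤ len P := by
          have h4 : (P.leadingCoeff).natAbs ≤ len P := by
            unfold len
            exact Finset.single_le_sum (f := fun i => (P.coeff i).natAbs) (fun _ _ => Nat.zero_le _)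
              (natDegree_mem_support_of_nonzero hirr.ne_zero)
          have h5 : P.leadingCoeff ≠ 0 := leadingCoeff_ne_zero.mpr hirr.ne_zero
          omega
        exact_mod_cast h3.trans hPl
      have hroot : ‖σ α‖ ≤ l := by
        have h3 : aeval (σ α) P = 0 := by
          have h4 : aeval (σ α) P = σ (aeval α P) := by
            have := Polynomial.aeval_algHom_apply (σ.restrictScalars ℤ) α P
            simpa using this
          rw [h4, hα, map_zero]
        refine (root_bound hdeg h3).trans ?_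
        exact_mod_cast hPl
      have hal : ((a.natAbs : ℕ) : ℝ) ≤ l := by
        have h4 : (P.leadingCoeff).natAbs ≤ len P := by
          unfold len
          exact Finset.single_le_sum (f := fun i => (P.coeff i).natAbs) (fun _ _ => Nat.zero_le _)
            (natDegree_mem_support_of_nonzero hirr.ne_zero)
        exact_mod_cast h4.trans hPl
      have e4 : σ (γ : K) = (a : ℂ) ^ r * ∑ i ∈ Finset.range (r + 1), (G.coeff i : ℂ) * (σ α) ^ i := by
        rw [hγ, map_mul, map_pow, map_intCast,
          aeval_eq_sum_range' (lt_of_le_of_lt hr (Nat.lt_succ_self r)), map_sum]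
        congr 1
        refine Finset.sum_congr rfl ?_
        intro i _
        rw [zsmul_eq_mul, map_mul, map_pow, map_intCast]
      have e5 : ‖∑ i ∈ Finset.range (r + 1), (G.coeff i : ℂ) * (σ α) ^ i‖ ≤ (l : ℝ) * (l : ℝ) ^ r := by
        calc ‖∑ i ∈ Finset.range (r + 1), (G.coeff i : ℂ) * (σ α) ^ i‖
            ≤ ∑ i ∈ Finset.range (r + 1), ((G.coeff i).natAbs : ℝ) * (l : ℝ) ^ r := by
              refine (norm_sum_le _ _).trans (Finset.sum_le_sum ?_)
              intro i hi
              rw [Finset.mem_range] at hi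
              rw [norm_mul, norm_pow, norm_int]
              refine mul_le_mul_of_nonneg_left ?_ (by positivity)
              calc ‖σ α‖ ^ i ≤ (l : ℝ) ^ i := pow_le_pow_left₀ (norm_nonneg _) hroot i
                _ ≤ (l : ℝ) ^ r := pow_le_pow_right₀ hl1 (by omega)
          _ = (len G : ℝ) * (l : ℝ) ^ r := by
              rw [← Finset.sum_mul, len_eq_range (lt_of_le_of_lt hr (Nat.lt_succ_self r))]
              push_cast; rfl
          _ ≤ (l : ℝ) * (l : ℝ) ^ r := by
              refine mul_le_mul_of_nonneg_right ?_ (by positivity)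
              exact_mod_cast hGl
      rw [e4, norm_mul, norm_pow, norm_int]
      calc ((a.natAbs : ℕ) : ℝ) ^ r * ‖∑ i ∈ Finset.range (r + 1), (G.coeff i : ℂ) * (σ α) ^ i‖
          ≤ (l : ℝ) ^ r * ((l : ℝ) * (l : ℝ) ^ r) := by
            refine mul_le_mul (pow_le_pow_left₀ (by positivity) hal r) e5 (norm_nonneg _)
              (by positivity)
        _ = (l : ℝ) ^ (2 * r + 1) := by ring
    have h3 : (((Algebra.norm ℤ γ).natAbs : ℕ) : ℝ) ≤ ((l : ℝ) ^ (2 * r + 1)) ^ P.natDegree := by
      rw [e3]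
      calc ∏ σ : K →ₐ[ℚ] ℂ, ‖σ (γ : K)‖ ≤ ∏ _σ : K →ₐ[ℚ] ℂ, (l : ℝ) ^ (2 * r + 1) :=
            Finset.prod_le_prod (fun _ _ => norm_nonneg _) (fun σ _ => hσ σ)
        _ = ((l : ℝ) ^ (2 * r + 1)) ^ P.natDegree := by
            rw [Finset.prod_const, Finset.card_univ, AlgHom.card, hrank]
    exact_mod_cast h3
  exact hnorm1.trans hnorm2

end Pool.Agent.V5helper47.MinLen
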